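import Pool.Agent.EOF76.Main

/-!
# Edge-ordered forests of bounded maximum degree: near-linear edge-ordered Ramsey numbers
(MP_50aaeb_co, Q1, towards the negated form)

For every `Δ` there is `C` such that for every `n` there is one edge-ordered complete graph on at
most `n 2 ^ (C (√(log₂ n) + 1))` vertices which is Ramsey for all edge-ordered forests on `n`
vertices of maximum degree at most `Δ`, at the same time and in one colour.
-/

set_option autoImplicit false

namespace Pool.Agent.Results.MP_50aaeb_co.ForestNear

/-- For every `Δ` there is a constant `C` such that for every `n` there are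
`N ≤ n * 2 ^ (C * (⌊√⌊log₂ n⌋⌋ + 1))` and an ordering `f` of the edges of `K_N` such that for every
2-colouring of the edges of `K_N` one of the two colours `b` contains an order-preserving copy of
every edge-ordered forest on `n` vertices of maximum degree at most `Δ`. -/
theorem result (Δ : ℕ) : ∃ C : ℕ, ∀ n : ℕ,
    ∃ N ≤ n * 2 ^ (C * (Nat.sqrt (Nat.log 2 n) + 1)),
    ∃ f : Sym2 (Fin N) → ℕ, Function.Injective f ∧
      ∀ col : Sym2 (Fin N) → Bool, ∃ b : Bool,
        ∀ (G : SimpleGraph (Fin n)) (g : Sym2 (Fin n) → ℕ), Set.InjOn g G.edgeSet →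
          G.IsAcyclic → (∀ v, (G.neighborSet v).ncard ≤ Δ) →
            ∃ φ : Fin n → Fin N, Function.Injective φ ∧
              (∀ e ∈ G.edgeSet, col (Sym2.map φ e) = b) ∧
              ∀ e ∈ G.edgeSet, ∀ e' ∈ G.edgeSet,
                (g e < g e' ↔ f (Sym2.map φ e) < f (Sym2.map φ e')) :=
  Pool.Agent.EOF76.main Δ

end Pool.Agent.Results.MP_50aaeb_co.ForestNear
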