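import Pool.Agent.EOForest.Main

/-!
# Edge-ordered forests with bounded components: linear edge-ordered Ramsey numbers
(MP_50aaeb_co, Q1, negated form for this family)

For every `k` there is `C` such that for every `n` there is one edge-ordered complete graph on at
most `C n` vertices which is Ramsey for all edge-ordered forests on `n` vertices all of whose
components have at most `k` vertices, at the same time and in one colour.
-/

set_option autoImplicit false

namespace Pool.Agent.Results.MP_50aaeb_co.ForestUpper

/-- For every `k` there is a constant `C` such that for every `n` there are `N ≤ C * n` and an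
ordering `f` of the edges of `K_N` such that for every 2-colouring of the edges of `K_N` one of the
two colours `b` contains an order-preserving copy of every edge-ordered forest on `n` vertices whose
components have at most `k` vertices. -/
theorem result (k : ℕ) : ∃ C : ℕ, ∀ n : ℕ, ∃ N ≤ C * n,
    ∃ f : Sym2 (Fin N) → ℕ, Function.Injective f ∧
      ∀ col : Sym2 (Fin N) → Bool, ∃ b : Bool,
        ∀ (G : SimpleGraph (Fin n)) (g : Sym2 (Fin n) → ℕ), Set.InjOn g G.edgeSet →
          G.IsAcyclic → (∀ A : G.ConnectedComponent, A.supp.ncard ≤ k) →
            ∃ φ : Fin n → Fin N, Function.Injective φ ∧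
              (∀ e ∈ G.edgeSet, col (Sym2.map φ e) = b) ∧
              ∀ e ∈ G.edgeSet, ∀ e' ∈ G.edgeSet,
                (g e < g e' ↔ f (Sym2.map φ e) < f (Sym2.map φ e')) :=
  Pool.Agent.EOForest.main k

end Pool.Agent.Results.MP_50aaeb_co.ForestUpper
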