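import Pool.Agent.UCT.Final

/-!
# Red copies in `K_N` are compressed, blue copies are thin and gappy (MP_50aaeb_co, Q1)

Let `0 < ω ≤ 1 / 2`, `δ > 0`, `η > 0`. For all large `n` there is an edge-ordered graph `H` on `n`
vertices, of maximum degree at most `Δ(ω, δ, η)`, such that every edge-ordered graph `G` with at
most `n ^ (2 + ε)` edges (for example `K_N`, `N ≤ n ^ (1 + ε / 2)`, in any order) has a 2-colouring
of its edges with the following properties. Every red order-preserving copy of `H` is compressed (a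
positive proportion of its edges in windows of `n ^ (1 + ω)` edges of `G`). Every blue copy of `H`
is thin at all scales `x ≤ n ^ (1 + ω - δ)` (all but a proportion `η` of its edges have at most
`n ^ δ x ^ (1 / 3)` edges of the copy within distance `x`) and gappy at all scales
`x ≤ n ^ (3 ω - 3 δ)` (more than `n ^ (1 - δ) / x ^ (1 / 3)` pairs of consecutive edges of the copy
have distance more than `x`).
-/

set_option autoImplicit false

namespace Pool.Agent.Results.MP_50aaeb_co.IrregularCopies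

/-- The distance of two edges `e`, `e'` of `G` in the order `f`: the number of edges `x` of `G` with
`f e ≤ f x < f e'` or `f e' ≤ f x < f e` (the difference of their ranks). -/
noncomputable def dist {N : ℕ} (G : SimpleGraph (Fin N)) (f : Sym2 (Fin N) → ℕ)
    (e e' : Sym2 (Fin N)) : ℕ :=
  {x ∈ G.edgeSet | (f e ≤ f x ∧ f x < f e') ∨ (f e' ≤ f x ∧ f x < f e)}.ncard

/-- `φ` is a copy of the graph `H`, ordered by `g`, in the graph `G`, ordered by `f`, and all its
edges have the colour `b` under `col` (`true` = red, `false` = blue). -/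
def IsColCopy {n N : ℕ} (H : SimpleGraph (Fin n)) (g : Sym2 (Fin n) → ℕ)
    (G : SimpleGraph (Fin N)) (f : Sym2 (Fin N) → ℕ) (col : Sym2 (Fin N) → Bool) (b : Bool)
    (φ : Fin n → Fin N) : Prop :=
  Function.Injective φ ∧ (∀ e ∈ H.edgeSet, Sym2.map φ e ∈ G.edgeSet) ∧
    (∀ e ∈ H.edgeSet, ∀ e' ∈ H.edgeSet, (g e < g e' ↔ f (Sym2.map φ e) < f (Sym2.map φ e'))) ∧
    ∀ e ∈ H.edgeSet, col (Sym2.map φ e) = b

/-- The number of edges of the copy `φ` of `H` within distance `x` of the image of the edge `e`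
(this edge included). -/
noncomputable def near {n N : ℕ} (H : SimpleGraph (Fin n)) (G : SimpleGraph (Fin N))
    (f : Sym2 (Fin N) → ℕ) (φ : Fin n → Fin N) (x : ℝ) (e : Sym2 (Fin n)) : ℕ :=
  {e' ∈ H.edgeSet | (dist G f (Sym2.map φ e) (Sym2.map φ e') : ℝ) ≤ x}.ncard

/-- More than `c n` edges of the copy `φ` of `H` have at least `c n` edges of the copy within
distance `x`. -/
def Compressed {n N : ℕ} (H : SimpleGraph (Fin n)) (G : SimpleGraph (Fin N))
    (f : Sym2 (Fin N) → ℕ) (φ : Fin n → Fin N) (x c : ℝ) : Prop :=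
  c * n < ({e ∈ H.edgeSet | c * n ≤ (near H G f φ x e : ℝ)}.ncard : ℝ)

/-- At most `η |E(H)|` edges of the copy `φ` of `H` have more than `y` edges of the copy within
distance `x`. -/
def Thin {n N : ℕ} (H : SimpleGraph (Fin n)) (G : SimpleGraph (Fin N))
    (f : Sym2 (Fin N) → ℕ) (φ : Fin n → Fin N) (x y η : ℝ) : Prop :=
  ({e ∈ H.edgeSet | y < (near H G f φ x e : ℝ)}.ncard : ℝ) ≤ η * H.edgeSet.ncard

/-- More than `y` pairs of consecutive edges of the copy `φ` of `H` have distance more than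
`x`. -/
def Gappy {n N : ℕ} (H : SimpleGraph (Fin n)) (g : Sym2 (Fin n) → ℕ)
    (G : SimpleGraph (Fin N)) (f : Sym2 (Fin N) → ℕ) (φ : Fin n → Fin N) (x y : ℝ) : Prop :=
  y < ({p : Sym2 (Fin n) × Sym2 (Fin n) | p.1 ∈ H.edgeSet ∧ p.2 ∈ H.edgeSet ∧
    g p.1 < g p.2 ∧ (∀ e ∈ H.edgeSet, ¬ (g p.1 < g e ∧ g e < g p.2)) ∧
    x < (dist G f (Sym2.map φ p.1) (Sym2.map φ p.2) : ℝ)}.ncard : ℝ)

/-- Let `0 < ω ≤ 1 / 2`, `δ > 0` and `η > 0`. There are `Δ`, `c > 0`, `ε > 0` and `n₀` such that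
for every `n ≥ n₀` there is an edge-ordered graph `H` on `n` vertices of maximum degree at most `Δ`
such that every edge-ordered graph `G` with at most `n ^ (2 + ε)` edges has a 2-colouring of its
edges in which (1) for every red copy `φ` of `H`, more than `c n` edges of `φ` have at least `c n`
edges of `φ` within distance `n ^ (1 + ω)`; (2) for every blue copy `φ` of `H` and every real `x`
with `1 ≤ x ≤ n ^ (1 + ω - δ)`, at most `η |E(H)|` edges of `φ` have more than `n ^ δ x ^ (1 / 3)`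
edges of `φ` within distance `x`; (3) for every blue copy `φ` of `H` and every real `x` with
`1 ≤ x ≤ n ^ (3 ω - 3 δ)`, more than `n ^ (1 - δ) / x ^ (1 / 3)` pairs of consecutive edges of `φ`
have distance more than `x`. -/
theorem result (ω δ η : ℝ) (hω : 0 < ω) (hω2 : ω ≤ 1 / 2) (hδ : 0 < δ) (hη : 0 < η) :
    ∃ Δ : ℕ, ∃ c : ℝ, 0 < c ∧ ∃ ε : ℝ, 0 < ε ∧ ∃ n₀ : ℕ, ∀ n : ℕ, n₀ ≤ n →
      ∃ (H : SimpleGraph (Fin n)) (g : Sym2 (Fin n) → ℕ), Set.InjOn g H.edgeSet ∧
        (∀ v : Fin n, (H.neighborSet v).ncard ≤ Δ) ∧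
        ∀ (N : ℕ) (G : SimpleGraph (Fin N)) (f : Sym2 (Fin N) → ℕ), Function.Injective f →
          (G.edgeSet.ncard : ℝ) ≤ (n : ℝ) ^ (2 + ε) →
          ∃ col : Sym2 (Fin N) → Bool,
            (∀ φ : Fin n → Fin N, IsColCopy H g G f col true φ →
              Compressed H G f φ ((n : ℝ) ^ (1 + ω)) c) ∧
            ∀ φ : Fin n → Fin N, IsColCopy H g G f col false φ →
              (∀ x : ℝ, 1 ≤ x → x ≤ (n : ℝ) ^ (1 + ω - δ) →
                Thin H G f φ x ((n : ℝ) ^ δ * x ^ (1 / 3 : ℝ)) η) ∧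
              ∀ x : ℝ, 1 ≤ x → x ≤ (n : ℝ) ^ (3 * ω - 3 * δ) →
                Gappy H g G f φ x ((n : ℝ) ^ (1 - δ) / x ^ (1 / 3 : ℝ)) := by
  obtain ⟨Δ, c, hc, ε, hε, n₀, h⟩ := Pool.Agent.UCT.main 3 ω δ η (by linarith) hω2 hδ hη
  refine ⟨Δ, c, hc, min ε 1, lt_min hε one_pos, max n₀ 1, fun n hn => ?_⟩
  obtain ⟨H, g, hg, hdeg, _, hH⟩ := h n (le_of_max_le_left hn)
  have hnR : (1 : ℝ) ≤ n := by exact_mod_cast le_of_max_le_right hn
  refine ⟨H, g, hg, hdeg, fun N G f hf hG => ?_⟩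
  obtain ⟨col, hcol1, hcol2⟩ := hH N G f hf (hG.trans (Real.rpow_le_rpow_of_exponent_le hnR (by
    have := min_le_right ε 1
    linarith)))
  refine ⟨col, hcol1, fun φ hφ => ?_⟩
  obtain ⟨h1, h2⟩ := hcol2 φ hφ
  exact ⟨h1, h2 (hG.trans (Real.rpow_le_rpow_of_exponent_le hnR (by
      have := min_le_left ε 1
      linarith)))⟩

end Pool.Agent.Results.MP_50aaeb_co.IrregularCopies
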