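import Pool.Agent.UCV.Thin

/-!
# Hosts with `n ^ (2 - δ)` edges are not Ramsey, all monochromatic copies are thin (MP_50aaeb_co)

For all large `n` there is an edge-ordered graph `H` on `n` vertices of maximum degree at most
`Δ(A, δ, η)` such that (a) every edge-ordered graph with at most `n ^ (2 - δ)` edges has a
2-colouring of its edges without a monochromatic order-preserving copy of `H`; (b) every
edge-ordered graph with at most `n ^ A` edges (for example `K_N`, `N ≤ n ^ (A / 2)`, in any order)
has a 2-colouring without a red copy of `H` in which every blue copy of `H` is thin at all scales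
`x ≤ n ^ (3 / 2 - δ)`: all but a proportion `η` of its edges have at most `n ^ δ rho(x)` edges of
the copy within distance `x` in the order of the host, where
`rho(x) = max (x ^ (1 / 3)) (min (x / n ^ (5 / 8)) (n ^ (1 / 2)))`.
-/

set_option autoImplicit false

namespace Pool.Agent.Results.MP_50aaeb_co.ThinCopies

/-- The distance of two edges `e`, `e'` of `G` in the order `f`: the number of edges `x` of `G` with
`f e ≤ f x < f e'` or `f e' ≤ f x < f e` (the difference of their ranks). -/
noncomputable def dist {N : ℕ} (G : SimpleGraph (Fin N)) (f : Sym2 (Fin N) → ℕ)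
    (e e' : Sym2 (Fin N)) : ℕ :=
  {x ∈ G.edgeSet | (f e ≤ f x ∧ f x < f e') ∨ (f e' ≤ f x ∧ f x < f e)}.ncard

/-- `φ` is a copy of the graph `H`, ordered by `g`, in the graph `G`, ordered by `f`, and all its
edges have the colour `b` under `col` (`true` = red, `false` = blue). -/
def IsColCopy {n N : ℕ} (H : SimpleGraph (Fin n)) (g : Sym2 (Fin n) → ℕ)
    (G : SimpleGraph (Fin N)) (f : Sym2 (Fin N) → ℕ) (col : Sym2 (Fin N) → Bool) (b : Bool)
    (φ : Fin n → Fin N) : Prop :=
  Function.Injective φ ∧ (∀ e ∈ H.edgeSet, Sym2.map φ e ∈ G.edgeSet) ∧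
    (∀ e ∈ H.edgeSet, ∀ e' ∈ H.edgeSet, (g e < g e' ↔ f (Sym2.map φ e) < f (Sym2.map φ e'))) ∧
    ∀ e ∈ H.edgeSet, col (Sym2.map φ e) = b

/-- The number of edges of the copy `φ` of `H` within distance `x` of the image of the edge `e`
(this edge included). -/
noncomputable def near {n N : ℕ} (H : SimpleGraph (Fin n)) (G : SimpleGraph (Fin N))
    (f : Sym2 (Fin N) → ℕ) (φ : Fin n → Fin N) (x : ℝ) (e : Sym2 (Fin n)) : ℕ :=
  {e' ∈ H.edgeSet | (dist G f (Sym2.map φ e) (Sym2.map φ e') : ℝ) ≤ x}.ncard

/-- The bound for the number of near edges. -/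
noncomputable def rho (n : ℕ) (x : ℝ) : ℝ :=
  max (x ^ (1 / 3 : ℝ)) (min (x / (n : ℝ) ^ (5 / 8 : ℝ)) ((n : ℝ) ^ (1 / 2 : ℝ)))

/-- Let `δ > 0`, `η > 0` and `A` be real. There are `Δ` and `n₀` such that for every `n ≥ n₀` there
is an edge-ordered graph `H` on `n` vertices of maximum degree at most `Δ` such that for every
edge-ordered graph `G`: (a) if `G` has at most `n ^ (2 - δ)` edges then it has a 2-colouring of
its edges without a monochromatic copy of `H`; (b) if `G` has at most `n ^ A` edges then it has a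
2-colouring of its edges without a red copy of `H` in which for every blue copy `φ` of `H` and
every real `x` with `1 ≤ x ≤ n ^ (3 / 2 - δ)`, at most `η |E(H)|` edges of `φ` have more than
`n ^ δ rho(x)` edges of `φ` within distance `x`. -/
theorem result (A δ η : ℝ) (hδ : 0 < δ) (hη : 0 < η) :
    ∃ Δ n₀ : ℕ, ∀ n : ℕ, n₀ ≤ n →
      ∃ (H : SimpleGraph (Fin n)) (g : Sym2 (Fin n) → ℕ), Set.InjOn g H.edgeSet ∧
        (∀ v : Fin n, (H.neighborSet v).ncard ≤ Δ) ∧
        ∀ (N : ℕ) (G : SimpleGraph (Fin N)) (f : Sym2 (Fin N) → ℕ), Function.Injective f →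
          ((G.edgeSet.ncard : ℝ) ≤ (n : ℝ) ^ (2 - δ) →
            ∃ col : Sym2 (Fin N) → Bool, ∀ (b : Bool) (φ : Fin n → Fin N),
              ¬ IsColCopy H g G f col b φ) ∧
          ((G.edgeSet.ncard : ℝ) ≤ (n : ℝ) ^ A →
            ∃ col : Sym2 (Fin N) → Bool,
              (∀ φ : Fin n → Fin N, ¬ IsColCopy H g G f col true φ) ∧
              ∀ φ : Fin n → Fin N, IsColCopy H g G f col false φ →
              ∀ x : ℝ, 1 ≤ x → x ≤ (n : ℝ) ^ (3 / 2 - δ) →
                ({e ∈ H.edgeSet | (n : ℝ) ^ δ * rho n x <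
                  (near H G f φ x e : ℝ)}.ncard : ℝ) ≤ η * H.edgeSet.ncard) :=
  Pool.Agent.UCV.thin A δ η hδ hη

end Pool.Agent.Results.MP_50aaeb_co.ThinCopies
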